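import Mathlib

set_option autoImplicit false

open Set Filter Topology

namespace Pool.Agent.Results.MP_f2fc76_an.LimitChainPoints

/-- A semigroup `F^t`, `t ≥ 0`, of continuous maps of `X` (only the values `F t` with `0 ≤ t`
matter). Continuity in `t` is not part of this definition, see `Jointly`. -/
structure SemiFlow (X : Type*) [TopologicalSpace X] where
  F : ℝ → X → X
  contF : ∀ t, 0 ≤ t → Continuous (F t)
  zero : ∀ x, F 0 x = x
  add : ∀ s t, 0 ≤ s → 0 ≤ t → ∀ x, F (t + s) x = F t (F s x)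

/-- The semi-flow is jointly continuous in time and space. -/
def Jointly {X : Type*} [TopologicalSpace X] (S : SemiFlow X) : Prop :=
  ContinuousOn (fun p : ℝ × X => S.F p.1 p.2) (Ici 0 ×ˢ univ)

variable {X : Type*} [MetricSpace X]

/-- A compact global attractor. -/
def IsGlobalAttractor (S : SemiFlow X) (G : Set X) : Prop :=
  IsCompact G ∧ (∀ t, 0 ≤ t → S.F t '' G = G) ∧
  ∀ K : Set X, IsCompact K → ∀ δ > 0, ∃ τ, 0 ≤ τ ∧ ∀ t, τ ≤ t →
    S.F t '' K ⊆ {x | Metric.infDist x G < δ}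

/-- `z : [0, τ] → X` is piecewise continuous: there are breakpoints `0 = s 0 < … < s m = τ` such
that on each open piece `z` agrees with a function continuous on the closed piece. -/
def PiecewiseCont (z : ℝ → X) (τ : ℝ) : Prop :=
  ∃ (m : ℕ) (s : ℕ → ℝ), s 0 = 0 ∧ s m = τ ∧ (∀ i < m, s i < s (i + 1)) ∧
    ∀ i < m, ∃ g : ℝ → X, ContinuousOn g (Icc (s i) (s (i + 1))) ∧
      EqOn z g (Ioo (s i) (s (i + 1)))

/-- An `ε`-chain of the semi-flow from `x` to `y` inside `K`, of duration `τ ≥ 1`. -/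
def IsFlowChain (S : SemiFlow X) (ε τ : ℝ) (x y : X) (K : Set X) (z : ℝ → X) : Prop :=
  1 ≤ τ ∧ PiecewiseCont z τ ∧
  (∀ t₀ t₁, 0 ≤ t₀ → t₀ < t₁ → t₁ ≤ τ → t₁ - t₀ ≤ 1 →
    dist (S.F (t₁ - t₀) (z t₀)) (z t₁) < ε) ∧
  z 0 = x ∧ z τ = y ∧ ∀ t ∈ Icc 0 τ, z t ∈ K

/-- An `ε`-chain `z 0, …, z n` of the map `g` from `x` to `y` inside `K`, of duration `n ≥ 1`. -/
def IsMapChain (g : X → X) (ε : ℝ) (n : ℕ) (x y : X) (K : Set X) (z : ℕ → X) : Prop :=
  1 ≤ n ∧ (∀ i < n, dist (g (z i)) (z (i + 1)) < ε) ∧ z 0 = x ∧ z n = y ∧ ∀ i ≤ n, z i ∈ K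

/-- `y` is a limit chain point of `x` for the semi-flow. -/
def FlowLimitChain (S : SemiFlow X) (x y : X) : Prop :=
  ∃ K : Set X, IsCompact K ∧ ∃ D : ℝ → ℝ, Tendsto D (𝓝[>] 0) atTop ∧
    ∀ ε > 0, ∃ z, IsFlowChain S ε (D ε) x y K z

/-- `y` is a limit chain point of `x` for the map `g`. -/
def MapLimitChain (g : X → X) (x y : X) : Prop :=
  ∃ K : Set X, IsCompact K ∧ ∃ D : ℝ → ℕ, Tendsto D (𝓝[>] 0) atTop ∧
    ∀ ε > 0, ∃ z, IsMapChain g ε (D ε) x y K z

theorem flow_iff (S : SemiFlow X) (x y : X) : FlowLimitChain S x y ↔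
    ∃ K : Set X, IsCompact K ∧ ∀ ε > 0, ∀ M : ℝ, ∃ τ, M ≤ τ ∧
      ∃ z, IsFlowChain S ε τ x y K z := by
  constructor
  · rintro ⟨K, hK, D, hD, h⟩
    refine ⟨K, hK, fun ε hε M => ?_⟩
    have h1 : ∀ᶠ δ in 𝓝[>] (0 : ℝ), M ≤ D δ := hD.eventually_ge_atTop M
    have h2 : ∀ᶠ δ in 𝓝[>] (0 : ℝ), δ < ε := by
      filter_upwards [Ioo_mem_nhdsGT hε] with δ hδ using hδ.2
    have h3 : ∀ᶠ δ in 𝓝[>] (0 : ℝ), 0 < δ := self_mem_nhdsWithin
    obtain ⟨δ, h4, h5, h6⟩ := (h1.and (h2.and h3)).exists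
    obtain ⟨z, z1, z2, z3, z4⟩ := h δ h6
    exact ⟨D δ, h4, z, z1, z2, fun t₀ t₁ a b c d => (z3 t₀ t₁ a b c d).trans h5, z4⟩
  · rintro ⟨K, hK, h⟩
    refine ⟨K, hK, ?_⟩
    choose! τ hτ z hz using fun ε (hε : ε > 0) => h ε hε ε⁻¹
    refine ⟨τ, ?_, fun ε hε => ⟨z ε hε, hz ε hε⟩⟩
    refine tendsto_atTop_mono' _ ?_ tendsto_inv_nhdsGT_zero
    filter_upwards [self_mem_nhdsWithin] with ε hε using hτ ε hε

theorem map_iff (g : X → X) (x y : X) : MapLimitChain g x y ↔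
    ∃ K : Set X, IsCompact K ∧ ∀ ε > 0, ∀ M : ℝ, ∃ n : ℕ, M ≤ n ∧
      ∃ z, IsMapChain g ε n x y K z := by
  constructor
  · rintro ⟨K, hK, D, hD, h⟩
    refine ⟨K, hK, fun ε hε M => ?_⟩
    have h1 : ∀ᶠ δ in 𝓝[>] (0 : ℝ), ⌈M⌉₊ ≤ D δ := hD.eventually_ge_atTop _
    have h2 : ∀ᶠ δ in 𝓝[>] (0 : ℝ), δ < ε := by
      filter_upwards [Ioo_mem_nhdsGT hε] with δ hδ using hδ.2
    have h3 : ∀ᶠ δ in 𝓝[>] (0 : ℝ), 0 < δ := self_mem_nhdsWithin
    obtain ⟨δ, h4, h5, h6⟩ := (h1.and (h2.and h3)).exists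
    obtain ⟨z, z1, z2, z3⟩ := h δ h6
    exact ⟨D δ, (Nat.le_ceil M).trans (by exact_mod_cast h4), z, z1,
      fun i hi => (z2 i hi).trans h5, z3⟩
  · rintro ⟨K, hK, h⟩
    refine ⟨K, hK, ?_⟩
    choose! n hn z hz using fun ε (hε : ε > 0) => h ε hε ε⁻¹
    refine ⟨n, ?_, fun ε hε => ⟨z ε hε, hz ε hε⟩⟩
    rw [← tendsto_natCast_atTop_iff (R := ℝ)]
    refine tendsto_atTop_mono' _ ?_ tendsto_inv_nhdsGT_zero
    filter_upwards [self_mem_nhdsWithin] with ε hε using hn ε hε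

variable (S : SemiFlow X) (hc : Jointly S)
include hc

theorem compact_image {K : Set X} (hK : IsCompact K) (R : ℝ) :
    IsCompact ((fun p : ℝ × X => S.F p.1 p.2) '' (Icc 0 R ×ˢ K)) :=
  (isCompact_Icc.prod hK).image_of_continuousOn
    (ContinuousOn.mono hc (prod_mono (fun _ h => h.1) (subset_univ _)))

theorem unif {K : Set X} (hK : IsCompact K) (R : ℝ) {e : ℝ} (he : 0 < e) :
    ∃ η > 0, ∀ s ∈ Icc 0 R, ∀ s' ∈ Icc 0 R, ∀ p ∈ K, ∀ p' ∈ K, |s - s'| < η → dist p p' < η →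
      dist (S.F s p) (S.F s' p') < e := by
  have h := (isCompact_Icc.prod hK).uniformContinuousOn_of_continuous
    (ContinuousOn.mono hc (prod_mono (fun _ h => h.1) (subset_univ _)) :
      ContinuousOn (fun p : ℝ × X => S.F p.1 p.2) (Icc 0 R ×ˢ K))
  rw [Metric.uniformContinuousOn_iff] at h
  obtain ⟨η, h1, h2⟩ := h e he
  refine ⟨η, h1, fun s hs s' hs' p hp p' hp' a b => ?_⟩
  refine h2 (s, p) ⟨hs, hp⟩ (s', p') ⟨hs', hp'⟩ ?_
  rw [Prod.dist_eq]
  exact max_lt (by rw [Real.dist_eq]; exact a) b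

/-- From semi-flow chains to chains of the time-`T` map. -/
theorem flow_to_map {T : ℝ} (hT : 0 < T) (x y : X) (h : FlowLimitChain S x y) :
    MapLimitChain (S.F T) x y := by
  rw [flow_iff] at h
  rw [map_iff]
  obtain ⟨K, hK, h⟩ := h
  refine ⟨K, hK, fun ε hε M => ?_⟩
  set L : ℕ := ⌈2 * T⌉₊ with hL
  have hL0 : 0 < L := Nat.ceil_pos.2 (by linarith)
  have hLT : 2 * T ≤ L := Nat.le_ceil _
  have hL1 : (0 : ℝ) < L := by exact_mod_cast hL0
  set K₁ : Set X := K ∪ (fun p : ℝ × X => S.F p.1 p.2) '' (Icc 0 1 ×ˢ K) with hK₁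
  have hK₁c : IsCompact K₁ := hK.union (compact_image S hc hK 1)
  set e : ℝ := ε / (2 * L) with he
  have he0 : 0 < e := by positivity
  obtain ⟨η₁, hη₁, hu₁⟩ := unif S hc hK₁c (2 * T) he0
  obtain ⟨η₂, hη₂, hu₂⟩ := unif S hc hK₁c (2 * T) (half_pos hε)
  set η := min η₁ η₂ with hη
  have hη0 : 0 < η := lt_min hη₁ hη₂
  obtain ⟨τ, hτ, z, z1, z2, z3, z4, z5, z6⟩ := h η hη0
    (max (T * (max M 1 + 1)) (T * (T / η + 1)))
  have hτ1 : T * (max M 1 + 1) ≤ τ := (le_max_left _ _).trans hτ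
  have hτ2 : T * (T / η + 1) ≤ τ := (le_max_right _ _).trans hτ
  set n : ℕ := ⌊τ / T⌋₊ with hn
  have hτ0 : 0 < τ := by linarith
  have hnle : (n : ℝ) ≤ τ / T := Nat.floor_le (by positivity)
  have hnlt : τ / T < n + 1 := Nat.lt_floor_add_one _
  have hn1 : max M 1 < n := by
    have : max M 1 + 1 ≤ τ / T := by rw [le_div_iff₀ hT]; linarith
    linarith
  have hn2 : T / η < n := by
    have : T / η + 1 ≤ τ / T := by rw [le_div_iff₀ hT]; linarith
    linarith
  have hn0 : (1 : ℝ) < n := (le_max_right _ _).trans_lt hn1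
  have hnpos : (0 : ℝ) < n := by linarith
  set T' : ℝ := τ / n with hT'
  have hT'1 : T ≤ T' := by
    rw [hT', le_div_iff₀ hnpos]
    rw [le_div_iff₀ hT] at hnle
    linarith
  have hT'2 : T' - T < η := by
    have h1 : τ < T * (n + 1) := by
      rw [div_lt_iff₀ hT] at hnlt; linarith
    have h2 : T' < T * (n + 1) / n := by
      rw [hT']; exact div_lt_div_of_pos_right h1 hnpos
    have h3 : T * (n + 1) / n = T + T / n := by field_simp
    have h4 : T / n < η := by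
      rw [div_lt_iff₀ hnpos]
      rw [div_lt_iff₀ hη0] at hn2
      linarith
    linarith
  have hT'3 : T' ≤ 2 * T := by
    have h1 : τ < T * (n + 1) := by
      rw [div_lt_iff₀ hT] at hnlt; linarith
    rw [hT', div_le_iff₀ hnpos]
    nlinarith
  have hT'0 : 0 < T' := by linarith
  -- telescoping along small steps
  set hh : ℝ := T' / L with hhh
  have hh0 : 0 < hh := by positivity
  have hh1 : hh ≤ 1 := by
    rw [hhh, div_le_one hL1]; linarith
  have tele : ∀ (j : ℕ) (s t₀ : ℝ), 0 ≤ s → 0 ≤ t₀ → s + j * hh ≤ 2 * T → t₀ + j * hh ≤ τ →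
      dist (S.F s (S.F (j * hh) (z t₀))) (S.F s (z (t₀ + j * hh))) ≤ j * e := by
    intro j
    induction j with
    | zero =>
      intro s t₀ _ _ _ _
      simp [S.zero]
    | succ j ih =>
      intro s t₀ hs ht₀ h1 h2
      push_cast at h1 h2 ⊢
      have hjh : 0 ≤ (j : ℝ) * hh := by positivity
      have h3 := ih (s + hh) t₀ (by linarith) ht₀ (by linarith) (by linarith)
      rw [S.add hh s hh0.le hs, S.add hh s hh0.le hs] at h3
      have e1 : S.F hh (S.F (j * hh) (z t₀)) = S.F ((j + 1) * hh) (z t₀) := by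
        rw [← S.add _ _ hjh hh0.le]; congr 1; ring
      rw [e1] at h3
      have e2 : t₀ + (j + 1) * hh = (t₀ + j * hh) + hh := by ring
      have h4 : dist (S.F hh (z (t₀ + j * hh))) (z (t₀ + (j + 1) * hh)) < η := by
        have := z3 (t₀ + j * hh) (t₀ + (j + 1) * hh) (by linarith) (by linarith) h2 (by linarith)
        rwa [show t₀ + (j + 1) * hh - (t₀ + j * hh) = hh by ring] at this
      have h5 : dist (S.F s (S.F hh (z (t₀ + j * hh)))) (S.F s (z (t₀ + (j + 1) * hh))) < e := by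
        refine hu₁ s ⟨hs, by linarith⟩ s ⟨hs, by linarith⟩ _ ?_ _ ?_ (by simpa using hη₁)
          (h4.trans_le (min_le_left _ _))
        · right
          exact ⟨(hh, z (t₀ + j * hh)), ⟨⟨hh0.le, hh1⟩, z6 _ ⟨by linarith, by linarith⟩⟩, rfl⟩
        · left
          exact z6 _ ⟨by linarith, h2⟩
      calc _ ≤ _ := dist_triangle _ (S.F s (S.F hh (z (t₀ + j * hh)))) _
        _ ≤ j * e + e := add_le_add h3 h5.le
        _ = (j + 1) * e := by ring
  have hnT' : (n : ℝ) * T' = τ := by rw [hT']; field_simp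
  refine ⟨n, (le_max_left M 1).trans hn1.le, fun i => z (i * T'), ?_, ?_, ?_, ?_, ?_⟩
  · exact_mod_cast hn0.le
  · intro i hi
    have hi' : ((i : ℝ) + 1) ≤ n := by exact_mod_cast hi
    have hiT : ((i : ℝ) + 1) * T' ≤ τ := by
      rw [← hnT']; exact mul_le_mul_of_nonneg_right hi' hT'0.le
    have hLh : (L : ℝ) * hh = T' := by rw [hhh]; field_simp
    have hi0 : 0 ≤ (i : ℝ) * T' := by positivity
    have h1 := tele L 0 (i * T') le_rfl hi0 (by rw [hLh]; linarith) (by rw [hLh]; linarith)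
    rw [S.zero, S.zero, hLh] at h1
    have h2 : dist (S.F T (z (i * T'))) (S.F T' (z (i * T'))) < ε / 2 := by
      refine hu₂ T ⟨hT.le, by linarith⟩ T' ⟨hT'0.le, hT'3⟩ _ ?_ _ ?_ ?_ (by simpa using hη₂)
      · left; exact z6 _ ⟨hi0, by linarith⟩
      · left; exact z6 _ ⟨hi0, by linarith⟩
      · rw [abs_sub_comm, abs_of_nonneg (by linarith)]
        exact hT'2.trans_le (min_le_right _ _)
    have h3 : (L : ℝ) * e = ε / 2 := by rw [he]; field_simp
    have h4 : (((i + 1 : ℕ) : ℝ)) * T' = i * T' + T' := by push_cast; ring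
    simp only
    rw [h4]
    calc _ ≤ _ := dist_triangle _ (S.F T' (z (i * T'))) _
      _ < ε / 2 + ε / 2 := by linarith
      _ = ε := by ring
  · simp only [Nat.cast_zero, zero_mul]; exact z4
  · simp only; rw [hnT']; exact z5
  · intro i hi
    have hi' : (i : ℝ) ≤ n := by exact_mod_cast hi
    refine z6 _ ⟨by positivity, ?_⟩
    rw [← hnT']; exact mul_le_mul_of_nonneg_right hi' hT'0.le

/-- From chains of the time-`T` map to semi-flow chains. -/
theorem map_to_flow {T : ℝ} (hT : 0 < T) (x y : X) (h : MapLimitChain (S.F T) x y) :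
    FlowLimitChain S x y := by
  rw [map_iff] at h
  rw [flow_iff]
  obtain ⟨K, hK, h⟩ := h
  refine ⟨(fun p : ℝ × X => S.F p.1 p.2) '' (Icc 0 T ×ˢ K), compact_image S hc hK T,
    fun ε hε M => ?_⟩
  set K₁ : Set X := K ∪ (fun p : ℝ × X => S.F p.1 p.2) '' (Icc 0 T ×ˢ K) with hK₁
  have hK₁c : IsCompact K₁ := hK.union (compact_image S hc hK T)
  set e : ℝ := ε / (1 / T + 2) with he
  have he0 : 0 < e := by positivity
  obtain ⟨η, hη, hu⟩ := unif S hc hK₁c 1 he0
  obtain ⟨n, hn, q, q1, q2, q3, q4, q5⟩ := h η hη (max M 1 / T)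
  have hnT : max M 1 ≤ n * T := by rwa [div_le_iff₀ hT] at hn
  set z : ℝ → X := fun t => S.F (t - ⌊t / T⌋₊ * T) (q ⌊t / T⌋₊) with hz
  have fl1 : ∀ t, 0 ≤ t → (⌊t / T⌋₊ : ℝ) * T ≤ t := by
    intro t ht
    have := Nat.floor_le (show 0 ≤ t / T by positivity)
    rwa [le_div_iff₀ hT] at this
  have fl2 : ∀ t, t < (⌊t / T⌋₊ + 1 : ℝ) * T := by
    intro t
    have := Nat.lt_floor_add_one (t / T)
    rwa [div_lt_iff₀ hT] at this
  have fln : ∀ t, t ≤ n * T → ⌊t / T⌋₊ ≤ n := by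
    intro t ht
    apply Nat.floor_le_of_le
    rwa [div_le_iff₀ hT]
  refine ⟨n * T, (le_max_left _ _).trans hnT, z, (le_max_right _ _).trans hnT, ?_, ?_, ?_, ?_, ?_⟩
  · refine ⟨n, fun i => i * T, by simp, rfl, fun i _ => ?_, fun i hi => ?_⟩
    · push_cast; linarith
    · refine ⟨fun t => S.F (t - i * T) (q i), ?_, ?_⟩
      · have h1 : ContinuousOn (fun t : ℝ => ((t - i * T, q i) : ℝ × X))
            (Icc (i * T) (((i + 1 : ℕ) : ℝ) * T)) := by fun_prop
        exact ContinuousOn.comp hc h1 (fun t ht => ⟨by simp only [mem_Ici]; linarith [ht.1], mem_univ _⟩)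
      · intro t ht
        have ht1 : (i : ℝ) * T < t := ht.1
        have ht2 : t < ((i + 1 : ℕ) : ℝ) * T := ht.2
        push_cast at ht2
        have hi0 : (0 : ℝ) ≤ i * T := by positivity
        have hf : ⌊t / T⌋₊ = i := by
          rw [Nat.floor_eq_iff (div_nonneg (hi0.trans ht1.le) hT.le), le_div_iff₀ hT,
            div_lt_iff₀ hT]
          exact ⟨ht1.le, ht2⟩
        show S.F (t - ⌊t / T⌋₊ * T) (q ⌊t / T⌋₊) = _
        rw [hf]
  · intro t₀ t₁ ht₀ h01 ht₁ h1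
    set i := ⌊t₀ / T⌋₊ with hi
    set j := ⌊t₁ / T⌋₊ with hj
    have hij : i ≤ j := Nat.floor_le_floor (div_le_div_of_nonneg_right h01.le hT.le)
    have hjn : j ≤ n := fln t₁ ht₁
    have hi1 := fl1 t₀ ht₀
    have hi2 := fl2 t₀
    have hj1 := fl1 t₁ (ht₀.trans h01.le)
    have hj2 := fl2 t₁
    have tele : ∀ k, i ≤ k → k ≤ j →
        dist (S.F (t₁ - i * T) (q i)) (S.F (t₁ - k * T) (q k)) ≤ ((k : ℝ) - i) * e := by
      intro k hik
      induction k, hik using Nat.le_induction with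
      | base => intro _; simp
      | succ k hk ih =>
        intro hkj
        have h2 := ih (by omega)
        have hkj' : ((k : ℝ) + 1) ≤ j := by exact_mod_cast hkj
        have hik' : (i : ℝ) ≤ k := by exact_mod_cast hk
        have h3 : ((k : ℝ) + 1) * T ≤ t₁ :=
          (mul_le_mul_of_nonneg_right hkj' hT.le).trans hj1
        have h4 : S.F (t₁ - k * T) (q k) = S.F (t₁ - (k + 1) * T) (S.F T (q k)) := by
          rw [← S.add _ _ hT.le (by linarith)]; congr 1; ring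
        have h5 : t₀ < ((k : ℝ) + 1) * T := by
          refine hi2.trans_le ?_
          apply mul_le_mul_of_nonneg_right _ hT.le
          linarith
        have h6 : dist (S.F (t₁ - (k + 1) * T) (S.F T (q k)))
            (S.F (t₁ - (k + 1) * T) (q (k + 1))) < e := by
          refine hu _ ⟨by linarith, by linarith⟩ _ ⟨by linarith, by linarith⟩ _ ?_ _ ?_
            (by simpa using hη) (q2 k (by omega))
          · right; exact ⟨(T, q k), ⟨⟨hT.le, le_rfl⟩, q5 k (by omega)⟩, rfl⟩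
          · left; exact q5 _ (by omega)
        rw [h4] at h2
        push_cast
        calc _ ≤ _ := dist_triangle _ (S.F (t₁ - (k + 1) * T) (S.F T (q k))) _
          _ ≤ ((k : ℝ) - i) * e + e := add_le_add h2 h6.le
          _ = ((k : ℝ) + 1 - i) * e := by ring
    have h7 : S.F (t₁ - t₀) (z t₀) = S.F (t₁ - i * T) (q i) := by
      simp only [hz]
      rw [← S.add _ _ (by linarith) (by linarith)]
      congr 1; ring
    rw [h7]
    have h8 := tele j hij le_rfl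
    refine h8.trans_lt ?_
    have h9 : ((j : ℝ) - i) < 1 / T + 2 := by
      have h10 : ((j : ℝ) - i - 1) * T < 1 := by nlinarith
      have h11 : ((j : ℝ) - i - 1) < 1 / T := by rwa [lt_div_iff₀ hT]
      linarith
    have h12 : (1 / T + 2) * e = ε := by rw [he]; field_simp
    rw [← h12]
    exact mul_lt_mul_of_pos_right h9 he0
  · simp only [hz]
    simp [S.zero, q3]
  · simp only [hz]
    have : ⌊(n : ℝ) * T / T⌋₊ = n := by
      rw [mul_div_assoc, div_self hT.ne', mul_one, Nat.floor_natCast]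
    rw [this, sub_self, S.zero, q4]
  · intro t ht
    exact ⟨(t - ⌊t / T⌋₊ * T, q ⌊t / T⌋₊), ⟨⟨by linarith [fl1 t ht.1], by linarith [fl2 t]⟩,
      q5 _ (fln t ht.2)⟩, rfl⟩

omit hc

section wild

/-- A discontinuous additive function with `φ 1 = 0` and `φ √2 ≠ 0`. -/
theorem exists_wild : ∃ φ : ℝ →ₗ[ℚ] ℚ, φ 1 = 0 ∧ φ (Real.sqrt 2) = 1 := by
  have h : Real.sqrt 2 ∉ (Submodule.span ℚ {(1 : ℝ)}) := by
    intro h
    rw [Submodule.mem_span_singleton] at h
    obtain ⟨q, hq⟩ := h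
    apply irrational_sqrt_two
    refine ⟨q, ?_⟩
    rw [← hq, Rat.smul_def, mul_one]
  obtain ⟨f, hf, hp⟩ := Submodule.exists_le_ker_of_notMem h
  refine ⟨(f (Real.sqrt 2))⁻¹ • f, ?_, ?_⟩
  · have : f 1 = 0 := hp (Submodule.mem_span_singleton_self 1)
    simp [this]
  · simp [hf]

theorem wild_small (φ : ℝ →ₗ[ℚ] ℚ) (h1 : φ 1 = 0) (h2 : φ (Real.sqrt 2) = 1) {δ : ℝ}
    (hδ : 0 < δ) : ∃ s, 0 < s ∧ s < δ ∧ φ s = 1 / 2 := by
  obtain ⟨q, hq1, hq2⟩ := exists_rat_btwn (show -(Real.sqrt 2 / 2) < -(Real.sqrt 2 / 2) + δ by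
    linarith)
  refine ⟨q + Real.sqrt 2 / 2, by linarith, by linarith, ?_⟩
  have e1 : (q : ℝ) = q • (1 : ℝ) := by rw [Rat.smul_def, mul_one]
  have e2 : Real.sqrt 2 / 2 = (1 / 2 : ℚ) • Real.sqrt 2 := by
    rw [Rat.smul_def]; push_cast; ring
  rw [e1, e2, map_add, map_smul, map_smul, h1, h2]
  simp

theorem dist_mul_circle (a b c : Circle) : dist (a * b) (a * c) = dist b c := by
  rw [show dist (a * b) (a * c) = dist ((a * b : Circle) : ℂ) ((a * c : Circle) : ℂ) from rfl,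
    show dist b c = dist (b : ℂ) (c : ℂ) from rfl, dist_eq_norm, dist_eq_norm, Circle.coe_mul,
    Circle.coe_mul, ← mul_sub, norm_mul, Circle.norm_coe, one_mul]

/-- the wild rotation semigroup -/
noncomputable def wild (φ : ℝ →ₗ[ℚ] ℚ) : SemiFlow Circle where
  F t x := Circle.exp (2 * Real.pi * (φ t : ℝ)) * x
  contF t _ := continuous_const.mul continuous_id
  zero x := by simp
  add s t _ _ x := by
    rw [map_add, ← mul_assoc, ← Circle.exp_add]
    congr 2
    push_cast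
    ring

theorem wild_attractor (φ : ℝ →ₗ[ℚ] ℚ) : IsGlobalAttractor (wild φ) univ := by
  refine ⟨isCompact_univ, fun t _ => ?_, fun K _ δ hδ => ⟨0, le_rfl, fun t _ => ?_⟩⟩
  · rw [image_univ]
    exact (Group.mulLeft_bijective (Circle.exp (2 * Real.pi * (φ t : ℝ)))).2.range_eq
  · rintro x -
    simp only [mem_ofPred_eq]
    rw [Metric.infDist_zero_of_mem (mem_univ x)]
    exact hδ

theorem wild_map (φ : ℝ →ₗ[ℚ] ℚ) (h1 : φ 1 = 0) (x y : Circle) :
    MapLimitChain ((wild φ).F 1) x y := by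
  rw [map_iff]
  refine ⟨univ, isCompact_univ, fun ε hε M => ?_⟩
  set θ : ℝ := ((y * x⁻¹ : Circle) : ℂ).arg with hθ
  obtain ⟨n, hn⟩ := exists_nat_gt (max (max M 1) (|θ| / ε))
  have hn1 : M < n := ((le_max_left _ _).trans (le_max_left _ _)).trans_lt hn
  have hn2 : (1 : ℝ) < n := ((le_max_right _ _).trans (le_max_left _ _)).trans_lt hn
  have hn3 : |θ| / ε < n := (le_max_right _ _).trans_lt hn
  have hn0 : (0 : ℝ) < n := by linarith
  refine ⟨n, hn1.le, fun i => Circle.exp (i * (θ / n)) * x, by exact_mod_cast hn2.le,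
    fun i _ => ?_, by simp, ?_, fun _ _ => mem_univ _⟩
  · have e1 : (wild φ).F 1 (Circle.exp (i * (θ / n)) * x) = Circle.exp (i * (θ / n)) * x := by
      show Circle.exp (2 * Real.pi * (φ 1 : ℝ)) * _ = _
      rw [h1]; simp
    rw [e1]
    have e2 : Circle.exp (((i + 1 : ℕ) : ℝ) * (θ / n)) * x =
        (Circle.exp (i * (θ / n)) * x) * Circle.exp (θ / n) := by
      have : ((i + 1 : ℕ) : ℝ) * (θ / n) = i * (θ / n) + θ / n := by push_cast; ring
      rw [this, Circle.exp_add]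
      exact mul_right_comm _ _ _
    simp only
    rw [e2]
    have e3 := dist_mul_circle (Circle.exp (i * (θ / n)) * x) 1 (Circle.exp (θ / n))
    rw [mul_one] at e3
    rw [e3, dist_comm, show dist (Circle.exp (θ / n)) 1 = dist ((Circle.exp (θ / n) : Circle) : ℂ)
      ((1 : Circle) : ℂ) from rfl, dist_eq_norm, Circle.coe_exp, Circle.coe_one, mul_comm]
    refine Real.norm_exp_I_mul_ofReal_sub_one_le.trans_lt ?_
    rw [Real.norm_eq_abs, abs_div, abs_of_pos hn0, div_lt_iff₀ hn0]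
    rw [div_lt_iff₀ hε] at hn3
    linarith
  · have : (n : ℝ) * (θ / n) = θ := by field_simp
    simp only
    rw [this, hθ, Circle.exp_arg]
    group

theorem wild_flow (φ : ℝ →ₗ[ℚ] ℚ) (h1 : φ 1 = 0) (h2 : φ (Real.sqrt 2) = 1) (x y : Circle) :
    ¬ FlowLimitChain (wild φ) x y := by
  rw [flow_iff]
  rintro ⟨K, -, h⟩
  obtain ⟨τ, -, z, z1, ⟨m, s, s0, sm, smono, hs⟩, z3, -⟩ := h 1 one_pos 0
  have hm : 0 < m := by
    rcases Nat.eq_zero_or_pos m with h | h
    · rw [h, s0] at sm; linarith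
    · exact h
  obtain ⟨g, hg, hg2⟩ := hs 0 hm
  have hlt : s 0 < s 1 := smono 0 hm
  have hs1 : s 1 ≤ τ := by
    rw [← sm]
    have : ∀ k, 1 ≤ k → k ≤ m → s 1 ≤ s k := by
      intro k hk
      induction k, hk using Nat.le_induction with
      | base => intro _; exact le_rfl
      | succ k hk ih => intro h; exact (ih (by omega)).trans (smono k (by omega)).le
    exact this m hm le_rfl
  set t₀ := (s 0 + s 1) / 2 with ht₀
  have ht1 : s 0 < t₀ := by rw [ht₀]; linarith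
  have ht2 : t₀ < s 1 := by rw [ht₀]; linarith
  have hgc : ContinuousAt g t₀ := (hg t₀ ⟨ht1.le, ht2.le⟩).continuousAt (Icc_mem_nhds ht1 ht2)
  obtain ⟨δ, hδ, hδ2⟩ := Metric.continuousAt_iff.1 hgc 1 one_pos
  obtain ⟨u, hu0, hu1, hu2⟩ := wild_small φ h1 h2
    (lt_min (lt_min hδ (sub_pos.2 ht2)) one_pos)
  have hu3 : u < δ := hu1.trans_le ((min_le_left _ _).trans (min_le_left _ _))
  have hu4 : u < s 1 - t₀ := hu1.trans_le ((min_le_left _ _).trans (min_le_right _ _))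
  have hu5 : u < 1 := hu1.trans_le (min_le_right _ _)
  have c1 := hδ2 (x := t₀ + u) (by rw [Real.dist_eq]; simpa [abs_of_pos hu0] using hu3)
  rw [← hg2 ⟨ht1, ht2⟩, ← hg2 ⟨by linarith, by linarith⟩] at c1
  have c2 := z3 t₀ (t₀ + u) (by linarith) (by linarith) (by linarith) (by linarith)
  rw [show t₀ + u - t₀ = u by ring] at c2
  have c3 : dist ((wild φ).F u (z t₀)) (z t₀) = 2 := by
    show dist (Circle.exp (2 * Real.pi * (φ u : ℝ)) * z t₀) (z t₀) = 2
    rw [hu2, mul_comm _ (z t₀)]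
    nth_rewrite 2 [← mul_one (z t₀)]
    rw [dist_mul_circle]
    have : 2 * Real.pi * (((1 / 2 : ℚ) : ℚ) : ℝ) = Real.pi := by push_cast; ring
    rw [this, show dist (Circle.exp Real.pi) 1 = dist ((Circle.exp Real.pi : Circle) : ℂ)
      ((1 : Circle) : ℂ) from rfl, dist_eq_norm, Circle.coe_exp, Circle.coe_one,
      Complex.exp_pi_mul_I]
    norm_num
  have c4 := dist_triangle ((wild φ).F u (z t₀)) (z (t₀ + u)) (z t₀)
  linarith

end wild

/-- Limit chain points of a jointly continuous semi-flow and of its time-`T` map are the same; if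
continuity in `t` is dropped from the definition of a semi-flow, this fails. -/
theorem result :
    (∀ (X : Type) [MetricSpace X] (S : SemiFlow X), Jointly S → ∀ T : ℝ, 0 < T → ∀ x y : X,
      (FlowLimitChain S x y ↔ MapLimitChain (S.F T) x y)) ∧
    (∃ S : SemiFlow Circle, IsGlobalAttractor S univ ∧
      ∀ x y : Circle, MapLimitChain (S.F 1) x y ∧ ¬ FlowLimitChain S x y) := by
  refine ⟨fun X _ S hc T hT x y => ⟨flow_to_map S hc hT x y, map_to_flow S hc hT x y⟩, ?_⟩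
  obtain ⟨φ, h1, h2⟩ := exists_wild
  exact ⟨wild φ, wild_attractor φ, fun x y => ⟨wild_map φ h1 x y, wild_flow φ h1 h2 x y⟩⟩

end Pool.Agent.Results.MP_f2fc76_an.LimitChainPoints
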